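import Pool.Agent.K6.H83.HN.Final3

/-!
# Any number of arbitrary multiplicities and every vector of smaller ones

Let `v 0 ≥ v 1 ≥ v 2 ≥ ⋯` be any multiplicities at `n` general points of the complex projective
plane and `T` the number of conditions.  The linear system of the curves of degree `d` has the
expected dimension in case (A); (B) and (C) are special cases of (A) (by arithmetic), spelled out.

* (A) Shelves: `s 0 = 9`, `s (k + 1) = s k + 5 + 2 p k` for `k < K`, `v (s K) < m`,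
  `D 0 ≥ max (v 0 + v 1 + v 2) (max (v 0) (v 1 + v 2 + v 7) + 2 ^ 16 m)`,
  `D (k + 1) = D k + v (s k) + 2 ^ 13 m`, `(p k + 2) (v (s k) + 2 ^ 13 m) ≤ D k`, and, with
  `J = 1 + ∑ (p k + 1)`, either `d ≥ D K` and (`d - (D K - D 0) ≥ 2 ^ 19 J m ^ 2` or
  `∑_{i ≥ s K} v i + 2 |(d + 2).choose 2 - T| ≥ 2 ^ 32 J m ^ 2`), or
  `∑_{i ≥ s K} v i ≥ 2 ^ 32 J m ^ 2` and `T ≥ (D K + 2).choose 2` (`d` is arbitrary).
* (B) The first `K ^ 2` multiplicities are arbitrary: (A) with `p k = k + 1`.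
* (C) The first `s` multiplicities are arbitrary and there is some room:
  `D ^ 2 + ∑_{9 ≤ i < s} v i ^ 2 + (11 v 9 + R) d ≤ d ^ 2` with
  `D = max (v 0 + v 1 + v 2) (max (v 0) (v 1 + v 2 + v 7) + 2 ^ 16 m)`, `m = v s + 1`,
  `R ≥ 2 ^ 16 t m` and `s ≤ t ^ 2`, and `R d ≥ 2 ^ 34 s m ^ 3` or
  `∑_{i ≥ s + 4} v i + 2 |(d + 2).choose 2 - T| ≥ 2 ^ 31 s m ^ 2`.
-/

set_option autoImplicit false

namespace Pool.Agent.Results.MP_6e81d8_ag.AnyNumberArbitrary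

open Pool.Agent

theorem result (n : ℕ) (v : ℕ → ℕ) (hv : Antitone v) :
    ∃ F : MvPolynomial (Fin n × Fin 2) ℂ, F ≠ 0 ∧
      ∀ P : Fin n → Fin 2 → ℂ,
        MvPolynomial.eval (fun ij : Fin n × Fin 2 => P ij.1 ij.2) F ≠ 0 →
        ∀ d : ℕ,
        -- (A) shelves of `2 p k + 5` points
        ((∃ (K m J : ℕ) (p s D : ℕ → ℕ), s 0 = 9 ∧ (∀ k, k < K → s (k + 1) = s k + 5 + 2 * p k) ∧
            s K < n ∧ v (s K) + 1 ≤ m ∧ v 0 + v 1 + v 2 ≤ D 0 ∧ v 0 + 2 ^ 16 * m ≤ D 0 ∧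
            v 1 + v 2 + v 7 + 2 ^ 16 * m ≤ D 0 ∧
            (∀ k, k < K → D (k + 1) = D k + v (s k) + 2 ^ 13 * m) ∧
            (∀ k, k < K → (p k + 2) * (v (s k) + 2 ^ 13 * m) ≤ D k) ∧
            J = (∑ k ∈ Finset.range K, (p k + 1)) + 1 ∧
            ((D K ≤ d ∧ (2 ^ 19 * J * m ^ 2 + D K ≤ d + D 0 ∨
                2 ^ 32 * (J : ℤ) * m ^ 2 ≤ (∑ i ∈ Finset.Ico (s K) n, (v i : ℤ)) +
                  2 * |((d + 2).choose 2 : ℤ) - ∑ i : Fin n, ((v i + 1).choose 2 : ℤ)|)) ∨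
              (2 ^ 32 * J * m ^ 2 ≤ (∑ i ∈ Finset.Ico (s K) n, v i) ∧
                (D K + 2).choose 2 ≤ ∑ i : Fin n, (v i + 1).choose 2))) ∨
        -- (B) `K ^ 2` arbitrary multiplicities
          (∃ K m S J : ℕ, 3 ≤ K ∧ K ^ 2 < n ∧ m = v (K ^ 2) + 1 ∧
            S = ∑ k ∈ Finset.Ico 3 K, (v (k ^ 2) + 2 ^ 13 * m) ∧ 2 * J = (K - 1) * (K - 2) ∧
            ((max (v 0 + v 1 + v 2) (max (v 0) (v 1 + v 2 + v 7) + 2 ^ 16 * m) + S ≤ d ∧
              (S + 2 ^ 19 * J * m ^ 2 ≤ d ∨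
                2 ^ 32 * (J : ℤ) * m ^ 2 ≤ (∑ i ∈ Finset.Ico (K ^ 2) n, (v i : ℤ)) +
                  2 * |((d + 2).choose 2 : ℤ) - ∑ i : Fin n, ((v i + 1).choose 2 : ℤ)|)) ∨
              (2 ^ 32 * J * m ^ 2 ≤ (∑ i ∈ Finset.Ico (K ^ 2) n, v i) ∧
                (max (v 0 + v 1 + v 2) (max (v 0) (v 1 + v 2 + v 7) + 2 ^ 16 * m) + S +
                  2).choose 2 ≤ ∑ i : Fin n, (v i + 1).choose 2))) ∨
        -- (C) `s` arbitrary multiplicities with some room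
          (∃ s m t R D : ℕ, 9 ≤ s ∧ s + 4 < n ∧ m = v s + 1 ∧ s ≤ t ^ 2 ∧ 2 ^ 16 * t * m ≤ R ∧
            D = max (v 0 + v 1 + v 2) (max (v 0) (v 1 + v 2 + v 7) + 2 ^ 16 * m) ∧
            D ^ 2 + (∑ i ∈ Finset.Ico 9 s, v i ^ 2) + (11 * v 9 + R) * d ≤ d ^ 2 ∧
            (2 ^ 34 * s * m ^ 3 ≤ R * d ∨
              2 ^ 31 * (s : ℤ) * m ^ 2 ≤ (∑ i ∈ Finset.Ico (s + 4) n, (v i : ℤ)) +
                2 * |((d + 2).choose 2 : ℤ) - ∑ i : Fin n, ((v i + 1).choose 2 : ℤ)|))) →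
          Module.finrank ℂ
            ↥(MvPolynomial.homogeneousSubmodule (Fin 3) ℂ d ⊓
              Submodule.restrictScalars ℂ
                (⨅ i : Fin n,
                  (Ideal.span
                    ({MvPolynomial.X 0 - MvPolynomial.C (P i 0) * MvPolynomial.X 2,
                      MvPolynomial.X 1 - MvPolynomial.C (P i 1) * MvPolynomial.X 2} :
                      Set (MvPolynomial (Fin 3) ℂ))) ^ (v i)))
          = Nat.choose (d + 2) 2 - ∑ i : Fin n, Nat.choose (v i + 1) 2 :=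
  K6.H83.HN.W.final3 n v hv

end Pool.Agent.Results.MP_6e81d8_ag.AnyNumberArbitrary
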