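import Pool.Agent.K6.H83.QH.MainQ

/-!
# One arbitrary multiplicity, the others measured by the number of their values

General points `P 0, …, P n` of the complex projective plane.  The multiplicity `M` of `P 0` is
arbitrary; those of the other points are arbitrary numbers at most `μ`, and `r ≥ 1` is a bound for
the number of their different values greater than one (`r = μ` is always possible).  Let `D` be a
number with `M + 2 ^ 10 (μ + 1) ≤ D` and `2 ^ 24 r (μ + 1) ^ 2 ≤ (D - M) D`.  The linear system has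
the expected dimension in every degree `d ≥ D`, and in EVERY degree if there are at least
`(D + 1) (D + 2) / 2` conditions.
-/

set_option autoImplicit false

namespace Pool.Agent.Results.MP_6e81d8_ag.OneArbitraryNumberOfValues

open Pool.Agent

theorem result (r n M μ D : ℕ) (hr : 0 < r) (hμ : 0 < μ) (h1 : M + 2 ^ 10 * (μ + 1) ≤ D)
    (h2 : 2 ^ 24 * (r * (μ + 1) ^ 2) ≤ (D - M) * D)
    (w : Fin n → ℕ) (hw : ∀ i, w i ≤ μ)
    (hk : ((Finset.univ.image w).filter fun x => 2 ≤ x).card ≤ r) :
    ∃ F : MvPolynomial (Fin (n + 1) × Fin 2) ℂ, F ≠ 0 ∧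
      ∀ P : Fin (n + 1) → Fin 2 → ℂ,
        MvPolynomial.eval (fun ij : Fin (n + 1) × Fin 2 => P ij.1 ij.2) F ≠ 0 →
        ∀ d : ℕ, (D ≤ d ∨ (D + 2).choose 2 ≤
              ∑ i : Fin (n + 1), Nat.choose ((Fin.cons M w : Fin (n + 1) → ℕ) i + 1) 2) →
          Module.finrank ℂ
            ↥(MvPolynomial.homogeneousSubmodule (Fin 3) ℂ d ⊓
              Submodule.restrictScalars ℂ
                (⨅ i : Fin (n + 1),
                  (Ideal.span
                    ({MvPolynomial.X 0 - MvPolynomial.C (P i 0) * MvPolynomial.X 2,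
                      MvPolynomial.X 1 - MvPolynomial.C (P i 1) * MvPolynomial.X 2} :
                      Set (MvPolynomial (Fin 3) ℂ))) ^ ((Fin.cons M w : Fin (n + 1) → ℕ) i)))
          = Nat.choose (d + 2) 2 -
              ∑ i : Fin (n + 1), Nat.choose ((Fin.cons M w : Fin (n + 1) → ℕ) i + 1) 2 := by
  obtain ⟨F, hF, hF'⟩ := K6.H83.QH.mainQ r n M μ D hr hμ h1 h2 w hw hk
  refine ⟨F.map (algebraMap ℚ ℂ), H932R3.map_ne_zero_of hF, fun P hP d hd => ?_⟩
  rw [MvPolynomial.eval_map] at hP
  exact hF' P hP d hd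

end Pool.Agent.Results.MP_6e81d8_ag.OneArbitraryNumberOfValues
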