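import Pool.Agent.K6.H83.QH.Main

/-!
# Quasi-homogeneous classes `(d; M, m, …, m)` in all degrees `d ≥ M + 64 m + 32`

General points `P 0, …, P n` of the complex projective plane, the multiplicity of `P 0` is
arbitrary, those of the other points are all `m` (or at most one), and there is no condition on
their number `n`.  The linear system has the expected dimension in every degree
`d ≥ M + 64 m + 32`.
-/

set_option autoImplicit false

namespace Pool.Agent.Results.MP_6e81d8_ag.QuasiHomogeneousClasses

open Pool.Agent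

theorem result (n M m : ℕ) (hm : 0 < m) (w : Fin n → ℕ) (hw : ∀ i, w i = m ∨ w i ≤ 1) :
    ∃ F : MvPolynomial (Fin (n + 1) × Fin 2) ℂ, F ≠ 0 ∧
      ∀ P : Fin (n + 1) → Fin 2 → ℂ,
        MvPolynomial.eval (fun ij : Fin (n + 1) × Fin 2 => P ij.1 ij.2) F ≠ 0 →
        ∀ d : ℕ, M + 64 * m + 32 ≤ d →
          Module.finrank ℂ
            ↥(MvPolynomial.homogeneousSubmodule (Fin 3) ℂ d ⊓
              Submodule.restrictScalars ℂ
                (⨅ i : Fin (n + 1),
                  (Ideal.span
                    ({MvPolynomial.X 0 - MvPolynomial.C (P i 0) * MvPolynomial.X 2,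
                      MvPolynomial.X 1 - MvPolynomial.C (P i 1) * MvPolynomial.X 2} :
                      Set (MvPolynomial (Fin 3) ℂ))) ^ ((Fin.cons M w : Fin (n + 1) → ℕ) i)))
          = Nat.choose (d + 2) 2 -
              ∑ i : Fin (n + 1), Nat.choose ((Fin.cons M w : Fin (n + 1) → ℕ) i + 1) 2 := by
  obtain ⟨F, hF, hF'⟩ := K6.H83.QH.main n M m hm w hw
  refine ⟨F.map (algebraMap ℚ ℂ), H932R3.map_ne_zero_of hF, fun P hP d hd => ?_⟩
  rw [MvPolynomial.eval_map] at hP
  exact hF' P hP d hd

end Pool.Agent.Results.MP_6e81d8_ag.QuasiHomogeneousClasses
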