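import Pool.Agent.K6.H83.HN.MainU

/-!
# Nine arbitrary multiplicities, Cremona reduced, and bounded ones: no window

Let `v 0 ≥ v 1 ≥ v 2 ≥ ⋯` be any multiplicities at general points of the complex projective plane
and `m = v 9 + 1`.  The linear system of the curves of degree `d ≥ v 0 + v 1 + v 2` with these
multiplicities has the expected dimension in each of the cases

* `d ≥ max (v 0) (v 1 + v 2 + v 7) + 2 ^ 16 m` and `d ≥ 2 ^ 19 m ^ 2`;
* `d ≥ v 0 + 2 ^ 16 m`, `d ≥ 2 ^ 40 m` and `3 d ≥ v 0 + ⋯ + v 8 + 2 ^ 27 m ^ 2`;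
* `d < v 0 + 2 ^ 16 m` and `d ≥ 2 ^ 61 m ^ 3`.

What is left out with `d ≥ 2 ^ 61 m ^ 3` are the systems near the multiples of the anticanonical
class of the first nine points.
-/

set_option autoImplicit false

namespace Pool.Agent.Results.MP_6e81d8_ag.TenthMultiplicity

open Pool.Agent

theorem result (r : ℕ) (v : Fin (r + 10) → ℕ) (hv : Antitone v) :
    ∃ F : MvPolynomial (Fin (r + 10) × Fin 2) ℂ, F ≠ 0 ∧
      ∀ P : Fin (r + 10) → Fin 2 → ℂ,
        MvPolynomial.eval (fun ij : Fin (r + 10) × Fin 2 => P ij.1 ij.2) F ≠ 0 →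
        ∀ d : ℕ, v 0 + v 1 + v 2 ≤ d →
          ((v 0 + 2 ^ 16 * (v 9 + 1) ≤ d ∧ v 1 + v 2 + v 7 + 2 ^ 16 * (v 9 + 1) ≤ d ∧
              2 ^ 19 * (v 9 + 1) ^ 2 ≤ d) ∨
            (v 0 + 2 ^ 16 * (v 9 + 1) ≤ d ∧ 2 ^ 40 * (v 9 + 1) ≤ d ∧
              (∑ i : Fin (r + 10), if (i : ℕ) < 9 then v i else 0) +
                2 ^ 27 * (v 9 + 1) ^ 2 ≤ 3 * d) ∨
            (d < v 0 + 2 ^ 16 * (v 9 + 1) ∧ 2 ^ 61 * (v 9 + 1) ^ 3 ≤ d)) →
          Module.finrank ℂ
            ↥(MvPolynomial.homogeneousSubmodule (Fin 3) ℂ d ⊓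
              Submodule.restrictScalars ℂ
                (⨅ i : Fin (r + 10),
                  (Ideal.span
                    ({MvPolynomial.X 0 - MvPolynomial.C (P i 0) * MvPolynomial.X 2,
                      MvPolynomial.X 1 - MvPolynomial.C (P i 1) * MvPolynomial.X 2} :
                      Set (MvPolynomial (Fin 3) ℂ))) ^ (v i)))
          = Nat.choose (d + 2) 2 - ∑ i : Fin (r + 10), Nat.choose (v i + 1) 2 := by
  obtain ⟨F, hF, hF'⟩ := K6.H83.HN.U.mainU (r := r) hv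
  refine ⟨F.map (algebraMap ℚ ℂ), H932R3.map_ne_zero_of hF, fun P hP d hd h => ?_⟩
  rw [MvPolynomial.eval_map] at hP
  exact hF' P hP d hd h

end Pool.Agent.Results.MP_6e81d8_ag.TenthMultiplicity
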